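import Pool.Agent.L0h4.TW.Fac
import Pool.Agent.N973.ND.BOX0

/-!
# Piece T, the symbols: the entries of the matrix in terms of `nr` and of the symbols of `ϖ`
-/

set_option autoImplicit false
set_option linter.unusedSectionVars false

open scoped NumberTheorySymbols

namespace Pool.Agent.L0h23.KD

open Pool.Agent.Y698 Pool.Agent.Y698.SG Pool.Agent.L0h4.TW
open H667R3 Pool.Agent.W192.HK Pool.Agent.TH936.PU
open Pool.Agent.TH936.CM hiding uu
open Pool.Agent.Y279.SG (sy_eq sy_cj dec nR_int cXY_cj unit_of_nR nR_dvd red qch_eq cj_mem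
  mk_int_of)
open Pool.Agent.Y703.CQ (nr)
open Pool.Agent.N973.ND (Pr m7 uu ty nr_rec nr_self RecA)

/-! ### the splitting of the primes -/

theorem jac_q7 : ∀ r : ℕ, r < 7 → ((r = 1 ∨ r = 2 ∨ r = 4) → jacobiSym ((r : ℕ) : ℤ) 7 = 1) ∧
    ((r = 3 ∨ r = 5 ∨ r = 6) → jacobiSym ((r : ℕ) : ℤ) 7 = -1) := by
  intro r hr
  interval_cases r <;> norm_num

/-- the symbol of `-7` -/
theorem jac_neg7 {q : ℕ} (hq : q % 2 = 1) : jacobiSym (-7) q = jacobiSym ((q % 7 : ℕ) : ℤ) 7 := by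
  have hodd : Odd q := Nat.odd_iff.2 hq
  have h0 : jacobiSym (-7) q = jacobiSym (q : ℤ) 7 := by
    rw [show (-7 : ℤ) = -1 * ((7 : ℕ) : ℤ) by norm_num, jacobiSym.mul_left,
      jacobiSym.at_neg_one hodd]
    rcases (by omega : q % 4 = 1 ∨ q % 4 = 3) with h5 | h5
    · rw [ZMod.χ₄_nat_one_mod_four h5, one_mul]
      have h6 := jacobiSym.quadratic_reciprocity_one_mod_four h5 (b := 7) (by decide)
      exact h6.symm
    · rw [ZMod.χ₄_nat_three_mod_four h5,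
        jacobiSym.quadratic_reciprocity_three_mod_four (by norm_num) h5]
      ring
  rw [h0, jacobiSym.mod_left]
  push_cast
  rfl

theorem neg7_iff {p : ℕ} (hpp : p.Prime) (h2 : p ≠ 2) (h7 : p ≠ 7) :
    IsSquare (-7 : ZMod p) ↔ (p % 7 = 1 ∨ p % 7 = 2 ∨ p % 7 = 4) := by
  have hp : Fact p.Prime := ⟨hpp⟩
  have hodd : p % 2 = 1 := hp.out.eq_two_or_odd.resolve_left h2
  have h1 := jac_neg7 hodd
  have h3 : p % 7 ≠ 0 := by
    intro h
    have := (Nat.prime_dvd_prime_iff_eq (by norm_num) hp.out).1 (Nat.dvd_of_mod_eq_zero h)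
    exact h7 this.symm
  have hlt : p % 7 < 7 := Nat.mod_lt _ (by norm_num)
  have h4 := jac_q7 (p % 7) hlt
  have h70 : (((-7 : ℤ) : ℤ) : ZMod p) ≠ 0 := by
    intro h
    rw [ZMod.intCast_zmod_eq_zero_iff_dvd] at h
    have h5 : p ∣ 7 := by
      have := Int.natAbs_dvd_natAbs.2 h
      simpa using this
    exact h7 ((Nat.prime_dvd_prime_iff_eq hp.out (by norm_num)).1 h5)
  rw [← jacobiSym.legendreSym.to_jacobiSym] at h1
  have h5 : IsSquare (-7 : ZMod p) ↔ legendreSym p (-7) = 1 := by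
    rw [legendreSym.eq_one_iff p h70]
    push_cast
    rfl
  rw [h5, h1]
  constructor
  · intro h
    by_contra hc
    have := h4.2 (by omega)
    rw [this] at h
    norm_num at h
  · exact h4.1

theorem m7_iff (p : ℕ) : m7 p = 1 ↔ (p % 7 = 1 ∨ p % 7 = 2 ∨ p % 7 = 4) := by
  unfold m7
  split_ifs with h
  · exact ⟨fun _ => h, fun _ => rfl⟩
  · exact ⟨fun h' => absurd h' (by norm_num), fun h' => absurd h' h⟩

/-- the split primes -/
theorem spP_iff (p : ℕ) : SpP p ↔ Pr p ∧ m7 p = 1 := by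
  constructor
  · intro h
    have h2 : p ≠ 2 := by
      rintro rfl
      have := h.odd
      omega
    exact ⟨⟨h.pr, h2, h.n7⟩, (m7_iff p).2 ((neg7_iff h.pr h2 h.n7).1 h.sq)⟩
  · rintro ⟨⟨h1, h2, h3⟩, h4⟩
    exact ⟨h1, h1.eq_two_or_odd.resolve_left h2, h3, (neg7_iff h1 h2 h3).2 ((m7_iff p).1 h4)⟩

/-- the inert primes -/
theorem inP_iff (p : ℕ) : InP p ↔ Pr p ∧ m7 p ≠ 1 := by
  constructor
  · intro h
    have h2 : p ≠ 2 := by
      rintro rfl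
      have := h.odd
      omega
    exact ⟨⟨h.pr, h2, h.ne7⟩, fun h' => h.ns ((neg7_iff h.pr h2 h.ne7).2 ((m7_iff p).1 h'))⟩
  · rintro ⟨⟨h1, h2, h3⟩, h4⟩
    exact ⟨h1, h1.eq_two_or_odd.resolve_left h2, fun h' =>
      h4 ((m7_iff p).2 ((neg7_iff h1 h2 h3).1 h'))⟩

/-! ### signs -/

lemma lg_neg {z : ℂ} (h : z = 1 ∨ z = -1) : lg (-z) = 1 + lg z := by
  rcases h with rfl | rfl
  · rw [lg_neg_one, lg_one, add_zero]
  · rw [neg_neg, lg_neg_one, lg_one]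
    decide

lemma uu_sg {p : ℕ} (h : p % 2 = 1) : (sg p = 1 ∧ uu p = 0 ∧ sgz p = 1) ∨
    (sg p = -1 ∧ uu p = 1 ∧ sgz p = -1) := by
  unfold sg uu sgz
  by_cases h1 : p % 4 = 1
  · left
    exact ⟨if_pos h1, if_neg (by omega), if_pos h1⟩
  · right
    exact ⟨if_neg h1, if_pos (by omega), if_neg h1⟩

lemma lg_qch {p n : ℕ} (hp : p.Prime) (hn : ¬ p ∣ n) : lg (qch p (n : ℤ)) = nr p n := by
  have _ : Fact p.Prime := ⟨hp⟩
  have hne : ((n : ℤ) : ZMod p) ≠ 0 := by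
    rw [Int.cast_natCast, Ne, ZMod.natCast_eq_zero_iff]
    exact hn
  have h1 := legendreSym.eq_one_iff p hne
  rw [Int.cast_natCast] at h1
  unfold lg qch nr
  rw [← jacobiSym.legendreSym.to_jacobiSym]
  by_cases h : legendreSym p (n : ℤ) = 1
  · rw [if_pos (h1.1 h), h, if_pos (by norm_num)]
  · rw [if_neg (fun h' => h (h1.2 h')), if_neg]
    intro h'
    exact h (by exact_mod_cast h')

lemma not_dvd_of {p q : ℕ} (hp : p.Prime) (hq : q.Prime) (h : p ≠ q) : ¬ p ∣ q := fun h' =>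
  h ((Nat.prime_dvd_prime_iff_eq hp hq).1 h')

/-- the reciprocity law with the signs -/
lemma qch_star {p q : ℕ} (hp : p % 2 = 1) (hq : q % 2 = 1) :
    qch p (sgz q * q) = qch q (p : ℤ) := by
  have hpo : Odd p := Nat.odd_iff.2 hp
  have hqo : Odd q := Nat.odd_iff.2 hq
  unfold sgz qch
  congr 1
  by_cases a1 : q % 4 = 1
  · rw [if_pos a1, one_mul]
    exact jacobiSym.quadratic_reciprocity_one_mod_four a1 hpo
  · rw [if_neg a1]
    have a3 : q % 4 = 3 := by omega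
    rw [jacobiSym.mul_left, jacobiSym.at_neg_one hpo, ZMod.χ₄_nat_eq_if_mod_four,
      if_neg (by omega)]
    by_cases a2 : p % 4 = 1
    · rw [if_pos a2, one_mul]
      exact (jacobiSym.quadratic_reciprocity_one_mod_four a2 hqo).symm
    · rw [if_neg a2, jacobiSym.quadratic_reciprocity_three_mod_four a3 (by omega)]
      ring

/-! ### symbols of primes of degree one -/

lemma nt_uu {x : RR} {p : ℕ} (h : D1 x p) : nt x = uu p := nt_D1 h

lemma nRcj {x : RR} {p : ℕ} (h : D1 x p) : nR (cj x) = p := by rw [nR_cj, h.nR]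

/-- the symbol of a sign -/
lemma lg_sg {x : RR} {p k : ℕ} (h : D1 x p) (hk : k % 2 = 1) : lg (sy x (sg k)) = uu k * uu p := by
  rcases uu_sg hk with ⟨h1, h2, -⟩ | ⟨h1, h2, -⟩
  · rw [h1, h2, zero_mul]
    have h3 : sy x 1 * sy x 1 = sy x 1 := by rw [← sy_mul' h.px.pr, one_mul]
    have h4 : (1 : RR) ∉ sp x := fun h' => h.px.pr.not_isUnit
      (isUnit_of_dvd_one (Ideal.mem_span_singleton.1 h'))
    rcases sy_sgn h4 with h5 | h5
    · rw [h5, lg_one]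
    · rw [h5] at h3
      norm_num at h3
  · rw [h1, h2, one_mul]
    exact nt_uu h

lemma sg_notin {x : RR} (h : Prime x) (k : ℕ) : sg k ∉ sp x := fun h' =>
  h.not_isUnit (isUnit_of_dvd_unit (Ideal.mem_span_singleton.1 h') (sg_unit k))

lemma cj_sg (p : ℕ) : cj (sg p) = sg p := by
  rw [sg_coe, map_intCast]

lemma cop1 {x y : RR} {p k : ℕ} (hx : D1 x p) (hy : nR y = k) (hpk : p ≠ k) (hk : k.Prime) :
    y ∉ sp x := not_mem_of hk hx.pr hpk.symm (Or.inl hy) (Or.inl hx.nR)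

/-- (S2) -/
lemma s2 {x y : RR} {p k : ℕ} (hx : D1 x p) (hy : D1 y k) (hpk : p ≠ k) :
    lg (sy (cj y) x) = lg (sy y x) + nr k p := by
  have h1 := sy_norm hy.pr hy.nR x
  rw [hx.nR] at h1
  have h2 : x ∉ sp y := cop1 hy hx.nR hpk.symm hx.pr
  have h3 : x ∉ sp (cj y) := by
    intro h
    have h4 : cj x ∈ sp y := by
      have := cj_mem.2 h
      rwa [cj_cj] at this
    exact cop1 hy (nRcj hx) hpk.symm hx.pr h4
  have h4 := lg_mul (sy_sgn h2) (sy_sgn h3)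
  rw [h1, lg_qch hy.pr (not_dvd_of hy.pr hx.pr hpk.symm)] at h4
  linear_combination -h4 - two_self (lg (sy y x))

lemma sy_sgmul {x y : RR} {p k : ℕ} (hx : D1 x p) (hk : k % 2 = 1) (hy : y ∉ sp x) :
    lg (sy x (sg k * y)) = uu k * uu p + lg (sy x y) := by
  rw [sy_mul' hx.px.pr, lg_mul (sy_sgn (sg_notin hx.px.pr k)) (sy_sgn hy), lg_sg hx hk]

/-- (S3) -/
lemma s3 {x y : RR} {p k : ℕ} (hx : D1 x p) (hy : D1 y k) (hpk : p ≠ k) :
    lg (sy y (sg p * cj x)) = uu p * uu k + (lg (sy y x) + nr k p) := by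
  rw [sy_sgmul hy hx.odd (cop1 hy (nRcj hx) hpk.symm hx.pr), ← s2 hx hy hpk]
  congr 2
  rw [← sy_cj, cj_cj]

/-- (S4) -/
lemma s4 {x y : RR} {p k : ℕ} (hx : D1 x p) (hy : D1 y k) (hpk : p ≠ k) :
    lg (sy (sg k * cj y) (sg p * cj x)) = uu p * uu k + lg (sy y x) := by
  rw [sy_sgmul hy.cj hx.odd (cop1 hy.cj (nRcj hx) hpk.symm hx.pr), sy_congr (sp_sg k _), sy_cj]

/-- the symbol of the conjugate, with `-√-7` -/
lemma s5 {x : RR} {p : ℕ} (hx : D1 x p) (hp7 : p ≠ 7) : lg (sy x (cj x)) = lg (e7 x) := by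
  -- `cj x = -√-7 * Y` modulo `x`
  have h1 : sy x (cj x) = sy x (-fR * ((cY x : ℤ) : RR)) := by
    apply sy_per
    rw [Ideal.mem_span_singleton']
    refine ⟨1, ?_⟩
    have e1 := dec x
    have e2 : cj x = ((cX x + cY x : ℤ) : RR) - ((cY x : ℤ) : RR) * aR := by
      apply RR_ext
      · rw [(cXY_cj x).1, sub_eq_add_neg, (cXY_add _ _).1, (cXY_int _).1, (cXY_neg _).1,
          (cXY_mul _ _).1, (cXY_int _).1, (cXY_int _).2, cXY_aR.1, cXY_aR.2]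
        ring
      · rw [(cXY_cj x).2, sub_eq_add_neg, (cXY_add _ _).2, (cXY_int _).2, (cXY_neg _).2,
          (cXY_mul _ _).2, (cXY_int _).1, (cXY_int _).2, cXY_aR.1, cXY_aR.2]
        ring
    rw [e2]
    unfold fR
    generalize cX x = U at *
    generalize cY x = V at *
    rw [e1]
    push_cast
    ring
  have hf : -fR ∉ sp x := cop1 hx D1_seven.nR hp7 D1_seven.pr
  have hxf : x ∉ sp (-fR) := cop1 D1_seven hx.nR hp7.symm hx.pr
  have hY : ((cY x : ℤ) : RR) ∉ sp x := by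
    intro h
    have h2 := sy_int hx.pr hx.nR (cY x)
    rcases qch_sgn hx.pr (not_dvd_cY hx.pr hx.nR) with h3 | h3
    · rw [h3] at h2
      unfold sy at h2
      rw [if_pos h] at h2
      norm_num at h2
    · rw [h3] at h2
      unfold sy at h2
      rw [if_pos h] at h2
      norm_num at h2
  rw [h1, sy_mul' hx.px.pr, lg_mul (sy_sgn hf) (sy_sgn hY)]
  -- the symbol of `-√-7`
  have h2 := rec11 hx D1_seven hxf hf
  rw [sy_seven, nt_uu hx, nt_uu D1_seven] at h2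
  have h7 : uu 7 = 1 := by unfold uu; norm_num
  rw [h7, mul_one] at h2
  -- the symbol of `Y`
  have h3 : lg (sy x ((cY x : ℤ) : RR)) = uu p := by
    rw [sy_int hx.pr hx.nR]
    have hx2 : nR x % 2 = 1 := by rw [hx.nR]; have := hx.odd; omega
    have h4 := fJ (X := cX x) (Y := cY x) (n := p) (by rw [← hx.nR]; rfl) hx.odd
      (cop_of_not hx.pr (not_dvd_cY hx.pr hx.nR))
      (fun h => not_dvd_cY hx.pr hx.nR (h ▸ dvd_zero _))
    have h5 := (N1_iff hx2).1 hx.n1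
    have h6 := nR_mod4 hx2
    rw [hx.nR] at h6
    have h7 := hx.odd
    obtain ⟨-, h8⟩ := par hx2
    rw [if_pos h5] at h4
    unfold qch uu
    rw [h4]
    by_cases h9 : cY x % 4 = 0
    · rw [if_pos h9, if_neg (by omega), Int.cast_one, lg_one]
    · rw [if_neg h9, if_pos (by omega), Int.cast_neg, Int.cast_one, lg_neg_one]
  rw [h3]
  linear_combination h2 + two_self (uu p) - two_self (lg (e7 x))

lemma e7cj (g : RR) : e7 (cj g) = e7 g := by
  apply e7_per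
  rw [← r7_eq_zero, map_sub, sub_eq_zero]
  have : cj g = (cX g : RR) + (cY g : RR) * (1 - aR) := rfl
  have haR : r7 aR = 4 := by
    rw [r7_apply, cXY_aR.1, cXY_aR.2]
    decide
  rw [this, map_add, map_mul, map_sub, map_one, map_intCast, map_intCast, haR, r7_apply]
  have : (1 - 4 : ZMod 7) = 4 := by decide
  rw [this]

/-! ### the entries -/

section
variable {Q P : Finset ℕ} {ϖ : ℕ → RR}

lemma pfQ {q : ℕ} (hq : q ∈ Q) (b : Bool) : pfx Q ϖ (q, b) = sg q * (q : RR) := if_pos hq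

lemma pff (h : Dt Q P ϖ) {p : ℕ} (hp : p ∈ P) : pfx Q ϖ (p, false) = ϖ p := by
  unfold pfx
  rw [if_neg (fun h1 => h.disj h1 hp)]
  rfl

lemma pft (h : Dt Q P ϖ) {p : ℕ} (hp : p ∈ P) : pfx Q ϖ (p, true) = sg p * cj (ϖ p) := by
  unfold pfx
  rw [if_neg (fun h1 => h.disj h1 hp)]
  rfl

lemma dQ (h : Dt Q P ϖ) {q : ℕ} (hq : q ∈ Q) : D2 (sg q * (q : RR)) q := ⟨h.q q hq, rfl⟩

variable (ϖ) in
/-- the symbols -/
noncomputable def Aw (p q : ℕ) : ZMod 2 := lg (sy (ϖ q) (ϖ p))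

variable (ϖ) in
/-- the diagonal -/
noncomputable def bw (p : ℕ) : ZMod 2 := lg (e7 (ϖ p))

lemma m_ff (h : Dt Q P ϖ) {p k : ℕ} (hp : p ∈ P) (hk : k ∈ P) :
    mr (pfx Q ϖ) (p, false) (k, false) = Aw ϖ p k := by
  unfold mr
  rw [pff h hp, pff h hk]
  rfl

lemma m_ft (h : Dt Q P ϖ) {p k : ℕ} (hp : p ∈ P) (hk : k ∈ P) (hpk : p ≠ k) :
    mr (pfx Q ϖ) (p, false) (k, true) = Aw ϖ p k + nr k p := by
  unfold mr
  rw [pff h hp, pft h hk, sy_congr (sp_sg k _)]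
  exact s2 (h.d1 hp) (h.d1 hk) hpk

lemma m_tf (h : Dt Q P ϖ) {p k : ℕ} (hp : p ∈ P) (hk : k ∈ P) (hpk : p ≠ k) :
    mr (pfx Q ϖ) (p, true) (k, false) = uu p * uu k + (Aw ϖ p k + nr k p) := by
  unfold mr
  rw [pft h hp, pff h hk]
  exact s3 (h.d1 hp) (h.d1 hk) hpk

lemma m_tt (h : Dt Q P ϖ) {p k : ℕ} (hp : p ∈ P) (hk : k ∈ P) (hpk : p ≠ k) :
    mr (pfx Q ϖ) (p, true) (k, true) = uu p * uu k + Aw ϖ p k := by
  unfold mr
  rw [pft h hp, pft h hk]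
  exact s4 (h.d1 hp) (h.d1 hk) hpk

lemma m_ft_self (h : Dt Q P ϖ) {p : ℕ} (hp : p ∈ P) :
    mr (pfx Q ϖ) (p, false) (p, true) = bw ϖ p := by
  unfold mr
  have h1 := sy_cj (ϖ p) (cj (ϖ p))
  rw [cj_cj] at h1
  rw [pff h hp, pft h hp, sy_congr (sp_sg p _), h1]
  exact s5 (h.d1 hp) (h.p p hp).n7

lemma m_tf_self (h : Dt Q P ϖ) {p : ℕ} (hp : p ∈ P) :
    mr (pfx Q ϖ) (p, true) (p, false) = uu p + bw ϖ p := by
  have hd := h.d1 hp
  have h1 : cj (ϖ p) ∉ sp (ϖ p) := by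
    intro h2
    have h3 := cj_mem.2 h2
    rw [cj_cj] at h3
    exact ne_cj hd.pr (h.p p hp).n7 hd.nR h3
  unfold mr
  rw [pff h hp, pft h hp, sy_sgmul hd hd.odd h1, s5 hd (h.p p hp).n7, sq_self]
  rfl

lemma c_f (h : Dt Q P ϖ) {p : ℕ} (hp : p ∈ P) : mc (pfx Q ϖ) (p, false) = bw ϖ p := by
  unfold mc
  rw [pff h hp]
  rfl

lemma c_t (h : Dt Q P ϖ) {p : ℕ} (hp : p ∈ P) : mc (pfx Q ϖ) (p, true) = uu p + bw ϖ p := by
  have hd := h.d1 hp
  have hx : ϖ p ∉ sp (-fR) := cop1 D1_seven hd.nR (h.p p hp).n7.symm hd.pr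
  have he : e7 (ϖ p) = 1 ∨ e7 (ϖ p) = -1 := by
    rw [← sy_seven]
    exact sy_sgn hx
  unfold mc
  rw [pft h hp]
  rcases uu_sg hd.odd with ⟨h1, h2, -⟩ | ⟨h1, h2, -⟩
  · rw [h1, h2, one_mul, e7cj, zero_add]
    rfl
  · rw [h1, h2, neg_one_mul, e7_neg, e7cj, lg_neg he]
    rfl

/-- symbols modulo an inert prime -/
lemma m_pq (h : Dt Q P ϖ) {p q : ℕ} (hp : p ∈ P) (hq : q ∈ Q) (b : Bool) :
    mr (pfx Q ϖ) (p, b) (q, false) = nr q p := by
  have hd := h.d1 hp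
  have hpq : q ≠ p := fun h' => h.disj hq (h' ▸ hp)
  have hn : nR (pfx Q ϖ (p, b)) = p := by
    rcases b with _ | _
    · rw [pff h hp]
      exact hd.nR
    · rw [pft h hp]
      exact hd.cj.nR
  unfold mr
  rw [pfQ hq, sy_congr (sp_sg q _), sy_inertX (h.q q hq), hn]
  exact lg_qch (h.q q hq).pr (not_dvd_of (h.q q hq).pr hd.pr hpq)

lemma m_qp (h : Dt Q P ϖ) {p q : ℕ} (hp : p ∈ P) (hq : q ∈ Q) (b : Bool) :
    mr (pfx Q ϖ) (q, false) (p, b) = nr q p := by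
  have hd := h.d1 hp
  have hpq : q ≠ p := fun h' => h.disj hq (h' ▸ hp)
  have hn : nR (pfx Q ϖ (p, b)) = p := by
    rcases b with _ | _
    · rw [pff h hp]
      exact hd.nR
    · rw [pft h hp]
      exact hd.cj.nR
  unfold mr
  rw [pfQ hq, sg_coe]
  have h1 := sy_int hd.pr hn (sgz q * q)
  push_cast at h1
  rw [h1]
  have h2 := qch_star hd.odd (h.q q hq).odd
  rw [h2]
  exact lg_qch (h.q q hq).pr (not_dvd_of (h.q q hq).pr hd.pr hpq)

lemma m_qq (h : Dt Q P ϖ) {q q' : ℕ} (hq : q ∈ Q) (hq' : q' ∈ Q) (hqq : q ≠ q') :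
    mr (pfx Q ϖ) (q, false) (q', false) = 0 := by
  unfold mr
  rw [pfQ hq, pfQ hq', rec22 (dQ h hq) (dQ h hq'), lg_one]
  exact not_mem_of (h.q q hq).pr (h.q q' hq').pr hqq (Or.inr (dQ h hq).nR) (Or.inr (dQ h hq').nR)

lemma c_q (h : Dt Q P ϖ) {q : ℕ} (hq : q ∈ Q) : mc (pfx Q ϖ) (q, false) = 1 + uu q := by
  have hi := h.q q hq
  have h2 := ((inP_iff q).1 hi)
  have h3 : e7 ((q : ℕ) : RR) = -1 := by
    rw [e7_nat]
    have h4 : ((q : ℕ) : ZMod 7) = ((q % 7 : ℕ) : ZMod 7) := by rw [ZMod.natCast_mod]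
    rw [h4]
    have h5 : q % 7 ≠ 0 := by
      intro h
      have := (Nat.prime_dvd_prime_iff_eq (by norm_num) hi.pr).1 (Nat.dvd_of_mod_eq_zero h)
      exact hi.ne7 this.symm
    have h6 := h2.2
    rw [Ne, m7_iff] at h6
    have h7 : q % 7 = 3 ∨ q % 7 = 5 ∨ q % 7 = 6 := by omega
    have h8 : ∀ r : ℕ, r < 7 → (r = 3 ∨ r = 5 ∨ r = 6) →
        quadraticChar (ZMod 7) ((r : ℕ) : ZMod 7) = -1 := by decide
    rw [h8 _ (Nat.mod_lt _ (by norm_num)) h7]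
    norm_num
  unfold mc
  rw [pfQ hq]
  rcases uu_sg hi.odd with ⟨h4, h5, -⟩ | ⟨h4, h5, -⟩
  · rw [h4, h5, one_mul, h3, lg_neg_one, add_zero]
  · rw [h4, h5, neg_one_mul, e7_neg, h3, neg_neg, lg_one]
    decide

end

/-- the reciprocity law -/
theorem recA {w : ℕ → RR} (h : ∀ p, SpP p → nR (w p) = p ∧ N1 (w p)) :
    RecA (fun p q => lg (sy (w q) (w p))) := by
  intro p q hp hq hpq h1 h2
  have hP := (spP_iff p).2 ⟨hp, h1⟩
  have hQ := (spP_iff q).2 ⟨hq, h2⟩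
  have dp : D1 (w p) p := ⟨hP.pr, hP.odd, (h p hP).1, (h p hP).2⟩
  have dq : D1 (w q) q := ⟨hQ.pr, hQ.odd, (h q hQ).1, (h q hQ).2⟩
  have h3 := rec11 dp dq (cop1 dq dp.nR hpq.symm hP.pr) (cop1 dp dq.nR hpq hQ.pr)
  rw [nt_uu dp, nt_uu dq] at h3
  show lg (sy (w p) (w q)) = lg (sy (w q) (w p)) + uu p * uu q
  linear_combination h3 - two_self (lg (sy (w q) (w p)))

end Pool.Agent.L0h23.KD
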