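import Pool.Agent.L0h23.KD.TRA
import Pool.Agent.L0h23.KD.TRB

/-!
# Piece T: the matrix of the primes of `ℚ(√-7)` and the good systems of project ND
-/

set_option autoImplicit false
set_option linter.unusedSectionVars false

open scoped Classical

namespace Pool.Agent.L0h23.KD

open Pool.Agent.Y698 Pool.Agent.Y698.SG Pool.Agent.L0h4.TW
open H667R3 Pool.Agent.W192.HK Pool.Agent.TH936.PU
open Pool.Agent.TH936.CM hiding uu
open Pool.Agent.Y703.CQ (nr)
open Pool.Agent.N973.ND (Pr m7 uu ty nr_rec nr_self RecA Ph TT rw' rw_eq Gd GR)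

section
variable {Q P : Finset ℕ} {ϖ : ℕ → RR}

lemma sum_ix (hd : Disjoint Q P) (f : ℕ × Bool → ZMod 2) :
    ∑ i ∈ ix Q P, f i = (∑ q ∈ Q, f (q, false)) + ∑ p ∈ P, (f (p, false) + f (p, true)) := by
  have hd' : Disjoint ((Q ∪ P) ×ˢ ({false} : Finset Bool)) (P ×ˢ ({true} : Finset Bool)) := by
    rw [Finset.disjoint_left]
    intro i hi hj
    rw [Finset.mem_product, Finset.mem_singleton] at hi hj
    rw [hi.2] at hj
    exact absurd hj.2 (by simp)
  unfold ix
  rw [Finset.sum_union hd', Finset.sum_product, Finset.sum_product]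
  simp only [Finset.sum_singleton]
  rw [Finset.sum_union hd, Finset.sum_add_distrib, add_assoc]

variable (Q P ϖ) in
/-- the rows -/
noncomputable def rowz (Z S : ℕ → ZMod 2) (p : ℕ) : ZMod 2 :=
  ∑ j ∈ Q ∪ P, nr j p * (Z j + Z p) + bw ϖ p * Z p + bw ϖ p * S p +
    ∑ k ∈ Q ∪ P, (if p = k then 0 else Aw ϖ p k + nr k p) * S k

variable (Q P ϖ) in
/-- the dual rows -/
noncomputable def phz (S : ℕ → ZMod 2) (j : ℕ) : ZMod 2 :=
  ∑ i ∈ Q ∪ P, S i * nr j i + (bw ϖ j + ∑ k ∈ Q ∪ P, nr k j) * S j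

/-- the row of the big matrix -/
noncomputable def brow (Q P : Finset ℕ) (ϖ : ℕ → RR) (x : ℕ × Bool → ZMod 2) (i : ℕ × Bool) :
    ZMod 2 :=
  mc (pfx Q ϖ) i * x i + ∑ j ∈ ix Q P, mr (pfx Q ϖ) i j * (x i + x j)

/-- the relation between the unknowns -/
structure Rel (Q P : Finset ℕ) (x : ℕ × Bool → ZMod 2) (Z S : ℕ → ZMod 2) : Prop where
  f : ∀ n ∈ Q ∪ P, x (n, false) = Z n
  t : ∀ p ∈ P, x (p, true) = Z p + S p
  q : ∀ q ∈ Q, S q = 0

lemma brow_pf (h : Dt Q P ϖ) {x : ℕ × Bool → ZMod 2} {Z S : ℕ → ZMod 2} (hr : Rel Q P x Z S)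
    {p : ℕ} (hp : p ∈ P) : brow Q P ϖ x (p, false) = rowz Q P ϖ Z S p := by
  have hfQ : ∀ q ∈ Q, x (q, false) = Z q := fun q hq => hr.f q (Finset.mem_union_left _ hq)
  have hfP : ∀ k ∈ P, x (k, false) = Z k := fun k hk => hr.f k (Finset.mem_union_right _ hk)
  have h1 : ∀ k ∈ P, mr (pfx Q ϖ) (p, false) (k, false) * (x (p, false) + x (k, false)) +
      mr (pfx Q ϖ) (p, false) (k, true) * (x (p, false) + x (k, true)) =
      nr k p * (Z k + Z p) + (if p = k then 0 else Aw ϖ p k + nr k p) * S k +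
        (if p = k then bw ϖ p * S p else 0) := by
    intro k hk
    rw [m_ff h hp hk, hfP p hp, hfP k hk, hr.t k hk]
    by_cases hpk : p = k
    · subst hpk
      rw [m_ft_self h hp, if_pos rfl, if_pos rfl, two_self (Z p), nr_self]
      linear_combination bw ϖ p * two_self (Z p)
    · rw [m_ft h hp hk hpk, if_neg hpk, if_neg hpk]
      linear_combination two_self (Aw ϖ p k * (Z p + Z k))
  have h2 : ∀ q ∈ Q, mr (pfx Q ϖ) (p, false) (q, false) * (x (p, false) + x (q, false)) =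
      nr q p * (Z q + Z p) := by
    intro q hq
    rw [m_pq h hp hq, hfP p hp, hfQ q hq, add_comm (Z p)]
  unfold brow rowz
  rw [sum_ix h.dis, Finset.sum_congr rfl h1, Finset.sum_congr rfl h2, Finset.sum_union h.dis,
    Finset.sum_union h.dis, c_f h hp, hfP p hp, Finset.sum_add_distrib, Finset.sum_add_distrib,
    Finset.sum_ite_eq P p, if_pos hp]
  have h3 : ∑ k ∈ Q, (if p = k then 0 else Aw ϖ p k + nr k p) * S k = 0 :=
    Finset.sum_eq_zero fun q hq => by rw [hr.q q hq, mul_zero]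
  rw [h3]
  ring

lemma brow_pt (h : Dt Q P ϖ) {x : ℕ × Bool → ZMod 2} {Z S : ℕ → ZMod 2} (hr : Rel Q P x Z S)
    {p : ℕ} (hp : p ∈ P) : brow Q P ϖ x (p, false) + brow Q P ϖ x (p, true) =
      phz Q P ϖ S p + uu p * Z p := by
  have hfQ : ∀ q ∈ Q, x (q, false) = Z q := fun q hq => hr.f q (Finset.mem_union_left _ hq)
  have hfP : ∀ k ∈ P, x (k, false) = Z k := fun k hk => hr.f k (Finset.mem_union_right _ hk)
  have h1 : ∀ k ∈ P, (mr (pfx Q ϖ) (p, false) (k, false) * (x (p, false) + x (k, false)) +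
      mr (pfx Q ϖ) (p, false) (k, true) * (x (p, false) + x (k, true))) +
      (mr (pfx Q ϖ) (p, true) (k, false) * (x (p, true) + x (k, false)) +
      mr (pfx Q ϖ) (p, true) (k, true) * (x (p, true) + x (k, true))) =
      nr k p * S p + S k * nr p k + (if p = k then uu p * S p else 0) := by
    intro k hk
    rw [m_ff h hp hk, hfP p hp, hfP k hk, hr.t k hk, hr.t p hp]
    by_cases hpk : p = k
    · subst hpk
      rw [m_ft_self h hp, m_tf_self h hp, if_pos rfl, nr_self, two_self (Z p + S p)]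
      linear_combination Aw ϖ p p * two_self (Z p) + bw ϖ p * two_self (Z p) +
        (uu p + bw ϖ p) * two_self (Z p) + two_self (bw ϖ p * S p)
    · have hdp := h.p p hp
      have hdk := h.p k hk
      have hrec := nr_rec (p := k) (q := p) hdk.pr (fun h' => by have := hdk.odd; omega) hdp.pr
        (fun h' => by have := hdp.odd; omega) (Ne.symm hpk)
      rw [m_ft h hp hk hpk, m_tf h hp hk hpk, m_tt h hp hk hpk, if_neg hpk, hrec]
      linear_combination (two_self (Aw ϖ p k * (Z p + Z k))) + two_self (nr k p * (Z p + Z k)) +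
        two_self (Aw ϖ p k * (Z p + S p + Z k)) + two_self (uu p * uu k * (Z p + S p + Z k)) +
        two_self (Aw ϖ p k * S k)
  have h2 : ∀ q ∈ Q, mr (pfx Q ϖ) (p, false) (q, false) * (x (p, false) + x (q, false)) +
      mr (pfx Q ϖ) (p, true) (q, false) * (x (p, true) + x (q, false)) =
      nr q p * S p := by
    intro q hq
    rw [m_pq h hp hq, m_pq h hp hq, hfP p hp, hfQ q hq, hr.t p hp]
    linear_combination two_self (nr q p * (Z p + Z q))
  have e : brow Q P ϖ x (p, false) + brow Q P ϖ x (p, true) =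
      mc (pfx Q ϖ) (p, false) * x (p, false) + mc (pfx Q ϖ) (p, true) * x (p, true) +
      (∑ q ∈ Q, (mr (pfx Q ϖ) (p, false) (q, false) * (x (p, false) + x (q, false)) +
        mr (pfx Q ϖ) (p, true) (q, false) * (x (p, true) + x (q, false)))) +
      ∑ k ∈ P, ((mr (pfx Q ϖ) (p, false) (k, false) * (x (p, false) + x (k, false)) +
      mr (pfx Q ϖ) (p, false) (k, true) * (x (p, false) + x (k, true))) +
      (mr (pfx Q ϖ) (p, true) (k, false) * (x (p, true) + x (k, false)) +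
      mr (pfx Q ϖ) (p, true) (k, true) * (x (p, true) + x (k, true)))) := by
    unfold brow
    rw [sum_ix h.dis, sum_ix h.dis, Finset.sum_add_distrib (s := Q), Finset.sum_add_distrib (s := P)
      (f := fun k => (mr (pfx Q ϖ) (p, false) (k, false) * (x (p, false) + x (k, false)) +
      mr (pfx Q ϖ) (p, false) (k, true) * (x (p, false) + x (k, true))))]
    ring
  rw [e, Finset.sum_congr rfl h1, Finset.sum_congr rfl h2, c_f h hp, c_t h hp, hfP p hp,
    hr.t p hp, Finset.sum_add_distrib, Finset.sum_add_distrib, Finset.sum_ite_eq P p, if_pos hp]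
  unfold phz
  rw [Finset.sum_union h.dis, Finset.sum_union h.dis]
  have h3 : ∑ k ∈ Q, S k * nr p k = 0 :=
    Finset.sum_eq_zero fun q hq => by rw [hr.q q hq, zero_mul]
  rw [h3, ← Finset.sum_mul, ← Finset.sum_mul]
  linear_combination two_self (bw ϖ p * Z p) + two_self (uu p * S p)

lemma brow_q (h : Dt Q P ϖ) {x : ℕ × Bool → ZMod 2} {Z S : ℕ → ZMod 2} (hr : Rel Q P x Z S)
    {q : ℕ} (hq : q ∈ Q) : brow Q P ϖ x (q, false) = phz Q P ϖ S q + (1 + uu q) * Z q := by
  have hfQ : ∀ q ∈ Q, x (q, false) = Z q := fun q hq => hr.f q (Finset.mem_union_left _ hq)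
  have hfP : ∀ k ∈ P, x (k, false) = Z k := fun k hk => hr.f k (Finset.mem_union_right _ hk)
  have h1 : ∀ k ∈ P, mr (pfx Q ϖ) (q, false) (k, false) * (x (q, false) + x (k, false)) +
      mr (pfx Q ϖ) (q, false) (k, true) * (x (q, false) + x (k, true)) = S k * nr q k := by
    intro k hk
    rw [m_qp h hk hq, m_qp h hk hq, hfP k hk, hfQ q hq, hr.t k hk]
    linear_combination two_self (nr q k * (Z q + Z k))
  have h2 : ∀ q' ∈ Q, mr (pfx Q ϖ) (q, false) (q', false) * (x (q, false) + x (q', false)) =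
      0 := by
    intro q' hq'
    by_cases hqq : q = q'
    · subst hqq
      rw [two_self, mul_zero]
    · rw [m_qq h hq hq' hqq, zero_mul]
  unfold brow phz
  rw [sum_ix h.dis, Finset.sum_congr rfl h1, Finset.sum_congr rfl h2, Finset.sum_const_zero,
    c_q h hq, hfQ q hq, Finset.sum_union h.dis, hr.q q hq]
  have h3 : ∑ k ∈ Q, S k * nr q k = 0 :=
    Finset.sum_eq_zero fun q hq => by rw [hr.q q hq, zero_mul]
  rw [h3]
  ring

/-! ### the system on the set of the primes -/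

lemma mP (h : Dt Q P ϖ) {n : ℕ} (hn : n ∈ Q ∪ P) : m7 n = 1 ↔ n ∈ P := by
  constructor
  · intro h1
    rcases Finset.mem_union.1 hn with h2 | h2
    · exact absurd h1 ((inP_iff n).1 (h.q n h2)).2
    · exact h2
  · intro h1
    exact ((spP_iff n).1 (h.p n h1)).2

lemma gP (h : Dt Q P ϖ) {n : ℕ} (hn : n ∈ P) :
    (if ty n = 2 ∨ ty n = 1 then (0 : ZMod 2) else 1) = uu n := by
  have h1 := ((spP_iff n).1 (h.p n hn)).2
  unfold ty uu
  rw [h1]
  by_cases h2 : n % 4 = 3
  · rw [if_pos h2, if_pos h2, if_neg (by omega)]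
  · rw [if_neg h2, if_neg h2, if_pos (by omega)]

lemma gQ (h : Dt Q P ϖ) {n : ℕ} (hn : n ∈ Q) :
    (if ty n = 2 ∨ ty n = 1 then (0 : ZMod 2) else 1) = 1 + uu n := by
  have h1 : m7 n = 0 := by
    have h2 := ((inP_iff n).1 (h.q n hn)).2
    have h3 := Pool.Agent.N973.ND.m7_le n
    omega
  unfold ty uu
  rw [h1]
  by_cases h2 : n % 4 = 3
  · rw [if_pos h2, if_pos h2, if_pos (by omega)]
    decide
  · rw [if_neg h2, if_neg h2, if_neg (by omega), add_zero]

lemma sys_nat (h : Dt Q P ϖ) (Z S : ℕ → ZMod 2) (hS : ∀ q ∈ Q, S q = 0) :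
    Sys (Finset.univ.filter fun i : {x // x ∈ Q ∪ P} => m7 i = 1)
      (Finset.univ.filter fun i : {x // x ∈ Q ∪ P} => ty i = 2 ∨ ty i = 1)
      (fun i j => nr j i) (fun i j => if i = j then 0 else Aw ϖ i j + nr j i)
      (fun i => bw ϖ i) (fun i => Z i) (fun i => S i) ↔
    (∀ p ∈ P, rowz Q P ϖ Z S p = 0) ∧ (∀ p ∈ P, phz Q P ϖ S p + uu p * Z p = 0) ∧
      ∀ q ∈ Q, phz Q P ϖ S q + (1 + uu q) * Z q = 0 := by
  have hrow : ∀ i : {x // x ∈ Q ∪ P}, rw' (fun i j : {x // x ∈ Q ∪ P} => nr j i)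
      (fun i => bw ϖ i) (fun i => Z i) i + bw ϖ i * S i +
      ∑ k : {x // x ∈ Q ∪ P}, (if i = k then 0 else Aw ϖ i k + nr k i) * S k =
      rowz Q P ϖ Z S i := by
    intro i
    rw [rw_eq]
    unfold rowz
    rw [Finset.sum_coe_sort (Q ∪ P) (fun j => nr j i * (Z j + Z i)),
      ← Finset.sum_coe_sort (Q ∪ P) (fun k => (if (i : ℕ) = k then 0 else
        Aw ϖ i k + nr k i) * S k)]
    congr 1
    refine Finset.sum_congr rfl fun k _ => ?_
    by_cases hik : i = k
    · rw [if_pos hik, if_pos (congrArg Subtype.val hik)]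
    · rw [if_neg hik, if_neg (fun h' => hik (Subtype.ext h'))]
  have hph : ∀ l : {x // x ∈ Q ∪ P}, Ph (fun i j : {x // x ∈ Q ∪ P} => nr j i)
      (fun i => bw ϖ i) (fun i => S i) l = phz Q P ϖ S l := by
    intro l
    unfold Ph TT phz
    rw [Finset.sum_coe_sort (Q ∪ P) (fun i => S i * nr l i),
      Finset.sum_coe_sort (Q ∪ P) (fun k => nr k l)]
  constructor
  · rintro ⟨-, h2, h3⟩
    refine ⟨fun p hp => ?_, fun p hp => ?_, fun q hq => ?_⟩
    · have hp' : p ∈ Q ∪ P := Finset.mem_union_right _ hp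
      rw [← hrow ⟨p, hp'⟩]
      exact h2 ⟨p, hp'⟩ (Finset.mem_filter.2 ⟨Finset.mem_univ _, (mP h hp').2 hp⟩)
    · have hp' : p ∈ Q ∪ P := Finset.mem_union_right _ hp
      have h4 := h3 ⟨p, hp'⟩
      rw [hph ⟨p, hp'⟩] at h4
      simp only [Finset.mem_filter, Finset.mem_univ, true_and] at h4
      rwa [gP h hp] at h4
    · have hq' : q ∈ Q ∪ P := Finset.mem_union_left _ hq
      have h4 := h3 ⟨q, hq'⟩
      rw [hph ⟨q, hq'⟩] at h4
      simp only [Finset.mem_filter, Finset.mem_univ, true_and] at h4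
      rwa [gQ h hq] at h4
  · rintro ⟨h1, h2, h3⟩
    refine ⟨fun i hi => ?_, fun i hi => ?_, fun l => ?_⟩
    · rcases Finset.mem_union.1 i.2 with h4 | h4
      · exact hS _ h4
      · exact (hi (Finset.mem_filter.2 ⟨Finset.mem_univ _, (mP h i.2).2 h4⟩)).elim
    · rw [hrow i]
      exact h1 i ((mP h i.2).1 (Finset.mem_filter.1 hi).2)
    · rw [hph l]
      simp only [Finset.mem_filter, Finset.mem_univ, true_and]
      rcases Finset.mem_union.1 l.2 with h4 | h4
      · rw [gQ h h4]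
        exact h3 l h4
      · rw [gP h h4]
        exact h2 l h4

lemma rows_iff (h : Dt Q P ϖ) {x : ℕ × Bool → ZMod 2} {Z S : ℕ → ZMod 2} (hr : Rel Q P x Z S) :
    (∀ i ∈ ix Q P, brow Q P ϖ x i = 0) ↔
    (∀ p ∈ P, rowz Q P ϖ Z S p = 0) ∧ (∀ p ∈ P, phz Q P ϖ S p + uu p * Z p = 0) ∧
      ∀ q ∈ Q, phz Q P ϖ S q + (1 + uu q) * Z q = 0 := by
  constructor
  · intro h1
    refine ⟨fun p hp => ?_, fun p hp => ?_, fun q hq => ?_⟩
    · rw [← brow_pf h hr hp]
      exact h1 _ (mem_ix.2 (Or.inr (Or.inl ⟨hp, rfl⟩)))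
    · rw [← brow_pt h hr hp, h1 _ (mem_ix.2 (Or.inr (Or.inl ⟨hp, rfl⟩))),
        h1 _ (mem_ix.2 (Or.inr (Or.inr ⟨hp, rfl⟩))), add_zero]
    · rw [← brow_q h hr hq]
      exact h1 _ (mem_ix.2 (Or.inl ⟨hq, rfl⟩))
  · rintro ⟨h1, h2, h3⟩ ⟨n, b⟩ hi
    rcases mem_ix.1 hi with ⟨h4, h5⟩ | ⟨h4, h5⟩ | ⟨h4, h5⟩
    · simp only at h4 h5
      subst h5
      rw [brow_q h hr h4]
      exact h3 _ h4
    · simp only at h4 h5
      subst h5
      rw [brow_pf h hr h4]
      exact h1 _ h4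
    · simp only at h4 h5
      subst h5
      have h6 := brow_pt h hr h4
      rw [h2 _ h4, brow_pf h hr h4, h1 _ h4, zero_add] at h6
      exact h6

/-- **Piece T.** -/
theorem tr (h : Dt Q P ϖ) : NonSing Q P ϖ ↔
    Pool.Agent.N973.ND.Gd (fun p q => lg (sy (ϖ q) (ϖ p))) (fun p => lg (e7 (ϖ p))) (Q ∪ P) := by
  have key : Pool.Agent.N973.ND.Gd (fun p q => lg (sy (ϖ q) (ϖ p))) (fun p => lg (e7 (ϖ p))) (Q ∪ P) ↔
      ∀ z s, Sys (Finset.univ.filter fun i : {x // x ∈ Q ∪ P} => m7 i = 1)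
      (Finset.univ.filter fun i : {x // x ∈ Q ∪ P} => ty i = 2 ∨ ty i = 1)
      (fun i j => nr j i) (fun i j => if i = j then 0 else Aw ϖ i j + nr j i)
      (fun i => bw ϖ i) z s → (∀ i, z i = 0) ∧ ∀ i, s i = 0 := by
    rw [sys_iff]
    unfold Pool.Agent.N973.ND.Gd Pool.Agent.N973.ND.GR
    constructor <;> intro hh <;> convert hh <;> rfl
  rw [key]
  unfold NonSing
  rw [gd_ker]
  constructor
  · intro h1 z s hzs
    set Z : ℕ → ZMod 2 := fun n => if hn : n ∈ Q ∪ P then z ⟨n, hn⟩ else 0 with hZ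
    set S : ℕ → ZMod 2 := fun n => if hn : n ∈ Q ∪ P then s ⟨n, hn⟩ else 0 with hS
    have ez : (fun i : {x // x ∈ Q ∪ P} => Z i) = z := by
      funext i
      exact dif_pos i.2
    have es : (fun i : {x // x ∈ Q ∪ P} => S i) = s := by
      funext i
      exact dif_pos i.2
    have hSQ : ∀ q ∈ Q, S q = 0 := by
      intro q hq
      have hq' : q ∈ Q ∪ P := Finset.mem_union_left _ hq
      have h2 : S q = s ⟨q, hq'⟩ := dif_pos hq'
      rw [h2]
      apply hzs.sup
      intro h3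
      exact h.disj hq ((mP h hq').1 (Finset.mem_filter.1 h3).2)
    have h2 := (sys_nat h Z S hSQ).1 (by rw [ez, es]; exact hzs)
    set x : ℕ × Bool → ZMod 2 := fun i => if i.2 then Z i.1 + S i.1 else Z i.1 with hx
    have hr : Rel Q P x Z S := ⟨fun n _ => rfl, fun n _ => rfl, hSQ⟩
    have h3 := h1 x ((rows_iff h hr).2 h2)
    have h4 : ∀ n ∈ Q ∪ P, Z n = 0 := by
      intro n hn
      have : x (n, false) = Z n := rfl
      rw [← this]
      apply h3
      rcases Finset.mem_union.1 hn with h5 | h5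
      · exact mem_ix.2 (Or.inl ⟨h5, rfl⟩)
      · exact mem_ix.2 (Or.inr (Or.inl ⟨h5, rfl⟩))
    have h5 : ∀ n ∈ Q ∪ P, S n = 0 := by
      intro n hn
      rcases Finset.mem_union.1 hn with h6 | h6
      · exact hSQ n h6
      · have h7 : x (n, true) = Z n + S n := rfl
        have h8 := h3 (n, true) (mem_ix.2 (Or.inr (Or.inr ⟨h6, rfl⟩)))
        rw [h7, h4 n hn, zero_add] at h8
        exact h8
    refine ⟨fun i => ?_, fun i => ?_⟩
    · rw [← ez]
      exact h4 i i.2
    · rw [← es]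
      exact h5 i i.2
  · intro h1 x hx i hi
    set Z : ℕ → ZMod 2 := fun n => x (n, false) with hZ
    set S : ℕ → ZMod 2 := fun n => if n ∈ P then x (n, false) + x (n, true) else 0 with hS
    have hr : Rel Q P x Z S := by
      refine ⟨fun n _ => rfl, fun p hp => ?_, fun q hq => ?_⟩
      · have : S p = x (p, false) + x (p, true) := if_pos hp
        rw [this]
        linear_combination -two_self (x (p, false))
      · exact if_neg (h.disj hq)
    obtain ⟨h2, h3⟩ := h1 _ _ ((sys_nat h Z S hr.q).2 ((rows_iff h hr).1 hx))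
    obtain ⟨n, b⟩ := i
    rcases mem_ix.1 hi with ⟨h4, h5⟩ | ⟨h4, h5⟩ | ⟨h4, h5⟩
    · simp only at h4 h5
      subst h5
      exact h2 ⟨n, Finset.mem_union_left _ h4⟩
    · simp only at h4 h5
      subst h5
      exact h2 ⟨n, Finset.mem_union_right _ h4⟩
    · simp only at h4 h5
      subst h5
      rw [hr.t n h4]
      have h6 : Z n = 0 := h2 ⟨n, Finset.mem_union_right _ h4⟩
      have h7 : S n = 0 := h3 ⟨n, Finset.mem_union_right _ h4⟩
      rw [h6, h7, add_zero]

end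

end Pool.Agent.L0h23.KD
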