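import Pool.Agent.N973.ND.BOX0

/-!
# Piece T, the linear algebra: the linear system and the two conditions of `Gv`
-/

set_option autoImplicit false
set_option linter.unusedSectionVars false

open scoped Classical

namespace Pool.Agent.L0h23.KD

open Finset
open Pool.Agent.N973.ND (Ph TT Zk bf Wk Gv rw' rw_add pair z2 z2_add ex ex_add ex_smul ex_res ex_single)

section abs

variable {V : Type} [Fintype V]

/-- the system of the rows -/
structure Sys (Sp Pc : Finset V) (N E : V → V → ZMod 2) (b z s : V → ZMod 2) : Prop where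
  sup : ∀ i, i ∉ Sp → s i = 0
  row : ∀ i ∈ Sp, rw' N b z i + b i * s i + ∑ k, E i k * s k = 0
  dual : ∀ l, Ph N b s l + (if l ∈ Pc then 0 else 1) * z l = 0

variable {Sp Pc : Finset V} {N E : V → V → ZMod 2} {b : V → ZMod 2}

theorem rw_ex_single (j : {j // j ∈ Pc}) (x : V → ZMod 2) (s : V → ZMod 2)
    (hx : x = ex (Pi.single j (1 : ZMod 2))) : ∑ i, s i * rw' N b x i = Ph N b s j := by
  rw [← pair, hx]
  rw [sum_eq_single (j : V)]
  · rw [ex_single, if_pos rfl, one_mul]
  · intro l _ hl
    rw [ex_single, if_neg hl, zero_mul]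
  · intro h
    exact absurd (mem_univ _) h

/-- a vector orthogonal to the annihilator of the image is in the image -/
theorem mem_range_of {M R : Type} [AddCommGroup M] [Module (ZMod 2) M] [Fintype R]
    (L : M →ₗ[ZMod 2] (R → ZMod 2)) (f : R → ZMod 2)
    (h : ∀ a : R → ZMod 2, (∀ x, ∑ ρ, a ρ * L x ρ = 0) → ∑ ρ, a ρ * f ρ = 0) :
    ∃ x, L x = f := by
  by_contra hc
  have hf : f ∉ LinearMap.range L := fun ⟨x, hx⟩ => hc ⟨x, hx⟩
  obtain ⟨φ, hφ, hL⟩ := Submodule.exists_le_ker_of_notMem hf
  have h1 : ∀ v : R → ZMod 2, φ v = ∑ ρ, φ (Pi.single ρ 1) * v ρ := by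
    intro v
    conv_lhs => rw [← Finset.univ_sum_single v]
    rw [map_sum]
    refine sum_congr rfl fun ρ _ => ?_
    have h2 : (Pi.single ρ (v ρ) : R → ZMod 2) = v ρ • Pi.single ρ 1 := by
      rw [← Pi.single_smul, smul_eq_mul, mul_one]
    rw [h2, map_smul, smul_eq_mul, mul_comm]
  apply hφ
  rw [h1]
  apply h
  intro x
  rw [← h1]
  exact hL ⟨x, rfl⟩

theorem sys_iff : (∀ z s, Sys Sp Pc N E b z s → (∀ i, z i = 0) ∧ ∀ i, s i = 0) ↔
    Gv Sp Pc N E b := by
  -- the form in terms of the rows
  have key : ∀ y s z0 : V → ZMod 2, Zk Sp Pc N b y →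
      (∀ l, l ∉ Pc → z0 l = Ph N b s l) →
      bf N E b y s = ∑ i, y i * (rw' N b z0 i + b i * s i + ∑ k, E i k * s k) := by
    intro y s z0 hy hz
    have h1 : ∑ j, Ph N b y j * Ph N b s j = ∑ j, z0 j * Ph N b y j := by
      refine sum_congr rfl fun j _ => ?_
      by_cases hj : j ∈ Pc
      · rw [hy.2 j hj, zero_mul, mul_zero]
      · rw [hz j hj, mul_comm]
    unfold bf
    rw [h1, pair]
    simp only [mul_add, sum_add_distrib, mul_sum]
    have e1 : ∀ i, b i * (y i * s i) = y i * (b i * s i) := fun i => by ring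
    have e2 : ∀ i j, y i * E i j * s j = y i * (E i j * s j) := fun i j => by ring
    simp only [e1, e2]
    ring
  constructor
  · intro h
    refine ⟨fun x hx => ?_, fun s hs hy => ?_⟩
    · have h1 : Sys Sp Pc N E b x (fun _ => 0) := by
        refine ⟨fun _ _ => rfl, fun i hi => ?_, fun l => ?_⟩
        · have h2 := hx.2 i hi
          simp only [mul_zero, sum_const_zero, add_zero]
          exact h2
        · unfold Ph
          by_cases hl : l ∈ Pc
          · simp [hl]
          · simp [hl, hx.1 l hl]
      exact (h _ _ h1).1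
    · set z0 : V → ZMod 2 := fun l => if l ∈ Pc then 0 else Ph N b s l with hz0
      have hz : ∀ l, l ∉ Pc → z0 l = Ph N b s l := fun l hl => if_neg hl
      set f : {i // i ∈ Sp} → ZMod 2 := fun i =>
        rw' N b z0 i + b i * s i + ∑ k, E i k * s k with hf
      set L : ({j // j ∈ Pc} → ZMod 2) →ₗ[ZMod 2] ({i // i ∈ Sp} → ZMod 2) :=
        { toFun := fun x i => rw' N b (ex x) i
          map_add' := fun x y => by
            funext i
            have : ex (x + y) = ex x + ex y := funext fun j => ex_add x y j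
            rw [this, rw_add]
            rfl
          map_smul' := fun a x => by
            funext i
            have : ex (a • x) = a • ex x := funext fun j => ex_smul a x j
            rw [this, Pool.Agent.N973.ND.rw_smul]
            rfl } with hL
      obtain ⟨x, hx⟩ := mem_range_of L f (by
        intro a ha
        set y : V → ZMod 2 := ex a with hyd
        have hyS : ∀ i, i ∉ Sp → y i = 0 := fun i hi => dif_neg hi
        have hya : ∀ i : {i // i ∈ Sp}, y i = a i := fun i => dif_pos i.2
        have hsum : ∀ F : V → ZMod 2, ∑ i, y i * F i = ∑ i : {i // i ∈ Sp}, a i * F i := by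
          intro F
          rw [← Finset.sum_subset (subset_univ Sp) (fun i _ hi => by rw [hyS i hi, zero_mul]),
            ← Finset.sum_coe_sort Sp]
          exact sum_congr rfl fun i _ => by rw [hya]
        have hyZ : Zk Sp Pc N b y := by
          refine ⟨hyS, fun j hj => ?_⟩
          rw [← rw_ex_single (⟨j, hj⟩ : {j // j ∈ Pc}) (ex (Pi.single ⟨j, hj⟩ 1)) y rfl, hsum]
          exact ha (Pi.single ⟨j, hj⟩ 1)
        have h1 := hy y hyZ
        rw [key y s z0 hyZ hz, hsum] at h1
        exact h1)
      have hxi : ∀ i ∈ Sp, rw' N b (ex x) i = rw' N b z0 i + b i * s i + ∑ k, E i k * s k :=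
        fun i hi => congrFun hx ⟨i, hi⟩
      have hx0 : ∀ l, l ∉ Pc → ex x l = 0 := fun l hl => dif_neg hl
      have h1 : Sys Sp Pc N E b (z0 + ex x) s := by
        refine ⟨hs.1, fun i hi => ?_, fun l => ?_⟩
        · rw [rw_add, hxi i hi]
          generalize rw' N b z0 i = A
          generalize ∑ k, E i k * s k = B
          linear_combination z2_add A + z2_add (b i * s i) + z2_add B
        · by_cases hl : l ∈ Pc
          · rw [if_pos hl, zero_mul, add_zero]
            exact hs.2 l hl
          · rw [if_neg hl, Pi.add_apply, hz l hl, hx0 l hl]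
            linear_combination z2_add (Ph N b s l)
      exact (h _ _ h1).2
  · rintro ⟨h1, h2⟩ z s ⟨hs, hr, hd⟩
    have hZ : Zk Sp Pc N b s := by
      refine ⟨hs, fun j hj => ?_⟩
      have := hd j
      rwa [if_pos hj, zero_mul, add_zero] at this
    have hz : ∀ l, l ∉ Pc → z l = Ph N b s l := by
      intro l hl
      have := hd l
      rw [if_neg hl, one_mul] at this
      linear_combination z2_add (z l) - this
    have hs0 : ∀ i, s i = 0 := by
      refine h2 s hZ fun y hy => ?_
      rw [key y s z hy hz]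
      refine sum_eq_zero fun i _ => ?_
      by_cases hi : i ∈ Sp
      · rw [hr i hi, mul_zero]
      · rw [hy.1 i hi, zero_mul]
    refine ⟨h1 z ⟨fun j hj => ?_, fun i hi => ?_⟩, hs0⟩
    · rw [hz j hj]
      unfold Ph
      simp [hs0]
    · have h3 := hr i hi
      simp only [hs0, mul_zero, sum_const_zero, add_zero] at h3
      exact h3

end abs

end Pool.Agent.L0h23.KD
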